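import Pool.Agent.R92.BChr.Proof

/-!
# The b-chromatic number of powers of Cartesian products

The inequality `φ((G □ H)^k) ≥ φ(G^k □ H^k)` fails for `k = 3`, `H = K_2` and a connected graph `G`
on nine vertices (with edges `05, 06, 07, 15, 16, 18, 26, 37, 38, 47, 48`): the left side is at
most `8`, while the right side is at least `9`.
-/

set_option autoImplicit false

namespace Pool.Agent.Results.MP_bf9ef8_co.PrismCube

open Pool.Agent.R92.BChr SimpleGraph

/-- There are a connected graph `G` on nine vertices and a connected graph `H` on two vertices with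
`φ((G □ H)^3) < φ(G^3 □ H^3)`; in fact `φ((G □ H)^3) ≤ 8` and `φ(G^3 □ H^3) ≥ 9`. -/
theorem result :
    ∃ (G : SimpleGraph (Fin 9)) (H : SimpleGraph (Fin 2)), G.Connected ∧ H.Connected ∧
      bChromatic (power (G □ H) 3) ≤ 8 ∧ 9 ≤ bChromatic (power G 3 □ power H 3) ∧
      bChromatic (power (G □ H) 3) < bChromatic (power G 3 □ power H 3) :=
  main

end Pool.Agent.Results.MP_bf9ef8_co.PrismCube
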